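import Pool.Agent.Helper90.MZ.StmtsC

set_option autoImplicit false

namespace Pool.Agent.Helper90.MZ

open Pool.Agent.Helper90.TS

/-- a configuration which witnesses that `p` is active -/
def aci_Cfg {V G : Type} [Group G] [MulAction G V] (X : Ctx V G) (p : Ty V) (M N : Set V)
    (z : Fin 1 → V) (q : Ty V) : Prop :=
  Mdl X M ∧ p.A ⊆ M ∧ Rl X p M z ∧ Atm X (M ∪ Set.range z) N ∧ ENI X q ∧ Sp X N q ∧ ¬ Sp X M q

theorem aci_tr (hA : ST_ATMB) (hM : ST_MDLB) (hI : ST_INVA) {V G : Type} [Group G]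
    [MulAction G V] {X : Ctx V G} {p : Ty V} (hp : SR X p) {M N : Set V} {z : Fin 1 → V}
    {q : Ty V} (h : aci_Cfg X p M N z q) {g : G} (hg : g ∈ Fx G p.A) :
    aci_Cfg X p (tr g M) (tr g N) (g • z) (mv g q) := by
  obtain ⟨h1, h2, h3, h4, h5, h6, h7⟩ := h
  obtain ⟨i1, i2, i3, i4, i5, i6, i7, i8, i9, i10, i11, i12⟩ := hI V G X g
  obtain ⟨-, -, e3, -⟩ := i12 p hp hg
  refine ⟨(hM V G X).2.2.2.2.1 M g h1, ?_, ?_, ?_, i9 q h5, i5 N q h6, ?_⟩
  · have := tr_mono g h2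
    rwa [tr_fx hg] at this
  · exact (e3 _ _).1 (i2 p M z hp.cnt h1.1 h3)
  · have := (hA V G X (M ∪ Set.range z) N).2.2.1 g h4
    rwa [tr_union, tr_range] at this
  · intro h8
    obtain ⟨-, -, -, -, j5, -⟩ := hI V G X g⁻¹
    have h9 := j5 (tr g M) (mv g q) h8
    rw [tr_inv_tr] at h9
    have h10 : mv g⁻¹ (mv g q) = q := i1 q
    rw [h10] at h9
    exact h7 h9

theorem aci_up (hD : ST_SRDN) (hX : ST_PRX) (hP : ST_PRIM) (hM : ST_MDLB) (hR : ST_RLB)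
    (hS : ST_SUPU) (hN : ST_NOEQ) {V G : Type} [Group G] [MulAction G V] {X : Ctx V G}
    {p : Ty V} (hp : SR X p) {M N : Set V} {z : Fin 1 → V} {q : Ty V}
    (h : aci_Cfg X p M N z q) {M' : Set V} (hM' : Mdl X M') (hMM : M ⊆ M')
    (hI : SI X M M' N) : ∃ P, N ⊆ P ∧ aci_Cfg X p M' P z q := by
  obtain ⟨h1, h2, h3, h4, h5, h6, h7⟩ := h
  have cM : M.Countable := h1.1
  have cM' : M'.Countable := hM'.1
  have cN : N.Countable := h4.1.1
  have hzN : Set.range z ⊆ N := Set.subset_union_right.trans h4.2.1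
  have hMN : M ⊆ N := Set.subset_union_left.trans h4.2.1
  have cz : (Set.range z).Countable := Set.countable_range z
  obtain ⟨N0, hN0, hN0s, -⟩ := (hM V G X).2.1 (M' ∪ N) ∅ (M' ∪ N) le_rfl (cM'.union cN)
    Set.countable_empty si_empty_right
  obtain ⟨P, hP0, hP1⟩ := hP V G X (N ∪ M') N0 hN0 (by rwa [Set.union_comm])
  have hNP : N ⊆ P := Set.subset_union_left.trans hP1.2.1
  have hIz : SI X M M' (Set.range z) := si_right cM cM' cN hzN hI
  have hPP : Atm X (M' ∪ Set.range z) P := by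
    have h8 := hX V G X M (Set.range z) M' N P h1 cz cM' h4 hIz hP1
    have e : M ∪ Set.range z ∪ M' = M' ∪ Set.range z := by
      rw [Set.union_right_comm, Set.union_eq_self_of_subset_left hMM]
    rwa [e] at h8
  have hz : Rl X p M' z := by
    have h8 := (hR V G X p hp M cM).2.2.2.1 z M' cM' h3 (by
      rw [Set.union_eq_self_of_subset_left h2]
      exact si_symm cM cM' cz hIz)
    rwa [Set.union_eq_self_of_subset_left hMM] at h8
  refine ⟨P, hNP, hM', h2.trans hMM, hz, hPP, h5, (hS V G X).1 N P q hNP h6, ?_⟩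
  rintro ⟨s, hs, hsM, hsq⟩
  obtain ⟨r, hr, hrN, hrq⟩ := h6
  have hq : SR X q := h5.1
  have hsr : NO X s r := (hN V G X).2.2 s q r hs hq hr hsq ((hN V G X).2.1 r q hrq)
  have hMs : Sp X M s := hD V G X M M' N s r h1 hM' h4.1 hMM hMN hI hs hsM hr hrN hsr
  exact h7 ((hS V G X).2.2.1 M s q hs hq hsq hMs)

theorem aci_two (hA : ST_ATMB) (hI : ST_INVA) (hD : ST_SRDN) (hX : ST_PRX) (hP : ST_PRIM)
    (hM : ST_MDLB) (hR : ST_RLB) (hS : ST_SUPU) (hN : ST_NOEQ) {V G : Type} [Group G]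
    [MulAction G V] {X : Ctx V G} {p : Ty V} (hp : SR X p) (hact : Act X p) {M : Set V}
    (h1 : Mdl X M) (_h2 : p.A ⊆ M) : ∃ (M' N : Set V) (z : Fin 1 → V) (q : Ty V), M ⊆ M' ∧
      aci_Cfg X p M' N z q := by
  obtain ⟨M1, N1, z, q, hc⟩ := hact
  obtain ⟨g, hg, hgi⟩ := si_ex (X := X) (A := p.A) (B := N1) (C := M) hp.cnt hc.2.2.2.1.1.1 h1.1
  have hc' := aci_tr hA hM hI hp hc hg
  have cM : M.Countable := h1.1
  have cM1 : (tr g M1).Countable := hc'.1.1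
  have cN1 : (tr g N1).Countable := hc'.2.2.2.1.1.1
  have hMN : tr g M1 ⊆ tr g N1 := Set.subset_union_left.trans hc'.2.2.2.1.2.1
  have h3 : SI X (tr g M1) (tr g N1) M := si_upl hp.cnt cN1 cM hgi hc'.2.1
    (hMN.trans Set.subset_union_right)
  have h4 : SI X (tr g M1) (tr g M1 ∪ M) (tr g N1) :=
    (si_add_basel cM1 cM cN1).2 (si_symm cM1 cN1 cM h3)
  obtain ⟨M', hM', hM's, hM'i⟩ := (hM V G X).2.1 (tr g M1) (tr g N1) (tr g M1 ∪ M)
    Set.subset_union_left (cM1.union cM) cN1 h4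
  obtain ⟨P, -, hP'⟩ := aci_up hD hX hP hM hR hS hN hp hc' hM'
    (Set.subset_union_left.trans hM's) hM'i
  exact ⟨M', P, g • z, mv g q, Set.subset_union_right.trans hM's, hP'⟩

theorem aci_one (hA : ST_ATMB) (hI : ST_INVA) (hD : ST_SRDN) (hX : ST_PRX) (hP : ST_PRIM)
    (hM : ST_MDLB) (hR : ST_RLB) (hS : ST_SUPU) (hN : ST_NOEQ) (hW : ST_NWO) (hE : ST_EXCH)
    {V G : Type} [Group G]
    [MulAction G V] {X : Ctx V G} {p : Ty V} (hp : SR X p) (hact : Act X p) {p' : Ty V}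
    (hp' : SR X p') (hno : NO X p p') : Act X p' := by
  obtain ⟨M, h1, h2, -⟩ := (hM V G X).2.1 (p.A ∪ p'.A) ∅ (p.A ∪ p'.A) le_rfl
    (hp.cnt.union hp'.cnt) Set.countable_empty si_empty_right
  obtain ⟨M', N, z, q, hMM, c1, c2, c3, c4, c5, c6, c7⟩ :=
    aci_two hA hI hD hX hP hM hR hS hN hp hact h1 (Set.subset_union_left.trans h2)
  have hpM : p'.A ⊆ M' := (Set.subset_union_right.trans h2).trans hMM
  have hno' : NO X p' p := (hN V G X).2.1 p p' hno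
  have hMN : M' ⊆ N := Set.subset_union_left.trans c4.2.1
  have hzN : Set.range z ⊆ N := Set.subset_union_right.trans c4.2.1
  obtain ⟨z', hz', hz'r⟩ := hW V G X p' p M' N z hp' hp hno' c1 hpM c2 c3 c4.1 hMN hzN
  obtain ⟨-, -, -, hat⟩ := hE V G X p' p M' N z' z hp' hp c1 hpM c2 c3 c4 hz' hz'r
  exact ⟨M', N, z', q, c1, hpM, hz'r, hat, c5, c6, c7⟩

theorem aci_three (hA : ST_ATMB) (hI : ST_INVA) (hD : ST_SRDN) (hX : ST_PRX) (hP : ST_PRIM)
    (hM : ST_MDLB) (hR : ST_RLB) (hS : ST_SUPU) (hN : ST_NOEQ) (hO : ST_DOM) (hF : ST_NF)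
    {V G : Type} [Group G] [MulAction G V] {X : Ctx V G} {p : Ty V} (hfew : Few X)
    (hp : SR X p) (hb : p.A.Finite) (hact : Act X p) {M N : Set V} {z : Fin 1 → V}
    (h1 : Mdl X M) (h2 : p.A ⊆ M) (h3 : Rl X p M z) (h4 : Atm X (M ∪ Set.range z) N) :
    ∃ q : Ty V, ENI X q ∧ Sp X N q ∧ ¬ Sp X M q := by
  have cb : p.A.Countable := hp.cnt
  have cz : (Set.range z).Countable := Set.countable_range z
  have cM : M.Countable := h1.1
  obtain ⟨M1, N1, z1, q1, hc⟩ := hact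
  -- move `z1` to `z`
  have hc1 : ∃ (M1 N1 : Set V) (q1 : Ty V), aci_Cfg X p M1 N1 z q1 := by
    obtain ⟨g, hg, hgz⟩ := eqv_trans (eqv_symm hc.2.2.1.1) h3.1
    have := aci_tr hA hM hI hp hc hg
    rw [hgz] at this
    exact ⟨_, _, _, this⟩
  clear hc
  obtain ⟨M1, N1, q1, hc⟩ := hc1
  -- make it free from `M` over `b ∪ z`
  have hc1 : ∃ (M1 N1 : Set V) (q1 : Ty V), aci_Cfg X p M1 N1 z q1 ∧
      SI X (p.A ∪ Set.range z) N1 M := by
    obtain ⟨g, hg, hgi⟩ := si_ex (X := X) (A := p.A ∪ Set.range z) (B := N1) (C := M)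
      (cb.union cz) hc.2.2.2.1.1.1 cM
    obtain ⟨hg1, hg2⟩ := fx_union.1 hg
    have := aci_tr hA hM hI hp hc hg1
    rw [fx_range.1 hg2] at this
    exact ⟨_, _, _, this, hgi⟩
  clear hc
  obtain ⟨M1, N1, q1, hc, hci⟩ := hc1
  have hM1 : Mdl X M1 := hc.1
  have cM1 : M1.Countable := hc.1.1
  have cN1 : N1.Countable := hc.2.2.2.1.1.1
  have hMN1 : M1 ⊆ N1 := Set.subset_union_left.trans hc.2.2.2.1.2.1
  have a1 : SI X p.A M1 (Set.range z) := si_symm cb cz cM1 hc.2.2.1.2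
  have a2 : SI X (p.A ∪ Set.range z) M1 M := si_left hMN1 hci
  have a3 : SI X p.A M1 (M ∪ Set.range z) := by
    rw [Set.union_comm]
    exact si_trans cb cM1 cz cM a1 a2
  have a4 : SI X (p.A ∪ M) (Set.range z) M1 :=
    si_symm (cb.union cM) cM1 cz ((si_union cb cM1 cM cz).1 a3).2
  have a5 : SI X p.A (Set.range z) (M ∪ M1) := si_trans cb cz cM cM1 h3.2 a4
  obtain ⟨L, hL, hLs, hLi⟩ := (hM V G X).2.1 (M ∪ M1) (Set.range z) (M ∪ M1) le_rfl
    (cM.union cM1) cz (si_self_left (cM.union cM1) cz le_rfl)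
  have cL : L.Countable := hL.1
  have hML : M ⊆ L := Set.subset_union_left.trans hLs
  have hM1L : M1 ⊆ L := Set.subset_union_right.trans hLs
  have a6 : SI X p.A (Set.range z) L := by
    have := si_trans' cz (cM.union cM1) cL (h2.trans Set.subset_union_left) a5
      (si_symm (cM.union cM1) cL cz hLi)
    rwa [Set.union_eq_self_of_subset_left hLs] at this
  have a7 : SI X M1 (Set.range z) L := si_up cb cz cL a6 hc.2.1
    (hM1L.trans Set.subset_union_right)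
  have a8 : SI X M1 L (Set.range z) := si_symm cM1 cz cL a7
  have a9 : SI X M1 L N1 := (hO V G X M1 (Set.range z) L N1 hM1 cz cL hc.2.2.2.1 a8).1
  obtain ⟨P, -, hP'⟩ := aci_up hD hX hP hM hR hS hN hp hc hL hM1L a9
  obtain ⟨-, d2, d3, d4, d5, d6, d7⟩ := hP'
  have hsup : Sup X (p.A ∪ Set.range z) q1 :=
    hF V G X p.A L P p q1 z hfew hb hp le_rfl hL d2 d3 d4 d5 d6 d7
  refine ⟨q1, d5, hsup N h4.1 ?_, ?_⟩
  · exact (Set.union_subset_union_left _ h2).trans h4.2.1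
  · intro h5
    exact d7 ((hS V G X).1 M L q1 hML h5)

theorem st_ACI (hF : ST_NF) (hSR : ST_SRFIN) (hD : ST_SRDN) (hW : ST_NWO) (hE : ST_EXCH)
    (hO : ST_DOM) (hX : ST_PRX) (hP : ST_PRIM) (hM : ST_MDLB) (hR : ST_RLB) (hS : ST_SUPU)
    (hN : ST_NOEQ) (hI : ST_INVA) (hA : ST_ATMB) : ST_ACI := by
  intro V G _ _ X p hp hact
  refine ⟨fun p' hp' hno => aci_one hA hI hD hX hP hM hR hS hN hW hE hp hact hp' hno, ?_, ?_⟩
  · intro M h1 h2
    obtain ⟨M', N, z, q, hMM, c1, c2, c3, c4, c5, c6, c7⟩ :=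
      aci_two hA hI hD hX hP hM hR hS hN hp hact h1 h2
    exact ⟨M', N, z, q, hMM, c1, c3, c4, c5, c6, c7⟩
  · intro hfew M N z h1 h2 h3 h4
    obtain ⟨A0, hA0, hfin, hall⟩ := hSR V G X p hp
    obtain ⟨s1, s2, s3, s4, s5⟩ := hall A0 le_rfl hA0
    have hact0 : Act X ⟨A0, p.D, p.z⟩ :=
      aci_one hA hI hD hX hP hM hR hS hN hW hE hp hact s1 s3
    have h30 : Rl X ⟨A0, p.D, p.z⟩ M z := by
      have := (s5 M z h1.1).1 h3
      rwa [Set.union_eq_self_of_subset_left h2] at this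
    exact aci_three hA hI hD hX hP hM hR hS hN hO hF hfew s1 hfin hact0 h1
      (hA0.trans h2) h30 h4

end Pool.Agent.Helper90.MZ
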